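import Mathlib
import Pool.Agent.H2.Mono.Defs

set_option autoImplicit false

namespace Pool.Agent.H2.Mono

open Classical

theorem P6cnt (B : Set ℕ) (C : Finset ℤ) (x y L0 L n D : ℕ) (e : ℤ)
    (hCx : ∀ d : ℤ, |d| ≤ L0 → ((∃ b ∈ B, (b:ℤ) = x + d) ↔ d ∈ C))
    (hCy : ∀ d : ℤ, |d| ≤ L → ((∃ b ∈ B, (b:ℤ) = y + d) ↔ d ∈ C))
    (hn : (n:ℤ) = x + y + e) (hD : ∀ c ∈ C, |c| ≤ (D:ℤ)) (hL0 : (D:ℤ) + |e| ≤ L0)
    (hL : D ≤ L) (hLx : (x:ℤ) + |e| ≤ L) (hxy : x + 2 * D < y)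
    (hfar : ∀ a b : ℕ, a ∈ B → b ∈ B → a + b = n → a < b → (y:ℤ) - L ≤ b) :
    r B n = ((C ×ˢ C).filter (fun q => q.1 + q.2 = e)).card := by
  unfold r
  refine Finset.card_bij (fun a _ => ((a:ℤ) - x, (n:ℤ) - a - y)) ?_ ?_ ?_
  · intro a ha
    rw [Finset.mem_filter, Finset.mem_range] at ha
    obtain ⟨han, haB, hbB, hab⟩ := ha
    obtain ⟨b, hb⟩ : ∃ b, b = n - a := ⟨_, rfl⟩
    rw [← hb] at hbB hab
    have hsum : a + b = n := by omega
    have h1 := hfar a b haB hbB hsum hab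
    have hee := abs_le.mp (le_refl |e|)
    have h2 : |(b:ℤ) - y| ≤ L := by
      rw [abs_le]
      constructor
      · linarith
      · have : (b:ℤ) ≤ n := by exact_mod_cast (by omega : b ≤ n)
        linarith [hee.2]
    have hc' : (b:ℤ) - y ∈ C := (hCy _ h2).mp ⟨b, hbB, by ring⟩
    have h3 := hD _ hc'
    have hsum' : (a:ℤ) + b = n := by exact_mod_cast hsum
    have h4 : (a:ℤ) - x = e - ((b:ℤ) - y) := by linarith
    have h5 : |(a:ℤ) - x| ≤ L0 := by
      rw [h4]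
      calc |e - ((b:ℤ) - y)| ≤ |e| + |(b:ℤ) - y| := abs_sub _ _
        _ ≤ L0 := by linarith
    have hc : (a:ℤ) - x ∈ C := (hCx _ h5).mp ⟨a, haB, by ring⟩
    have h6 : (n:ℤ) - a - y = (b:ℤ) - y := by linarith
    rw [Finset.mem_filter, Finset.mem_product]
    refine ⟨⟨hc, ?_⟩, ?_⟩
    · change (n:ℤ) - a - y ∈ C
      rw [h6]; exact hc'
    · change (a:ℤ) - x + ((n:ℤ) - a - y) = e
      linarith
  · intro a _ a' _ h
    have h1 : (a:ℤ) - x = (a':ℤ) - x := congrArg Prod.fst h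
    have h2 : (a:ℤ) = a' := by linarith
    exact_mod_cast h2
  · rintro ⟨c, c'⟩ hcc
    rw [Finset.mem_filter, Finset.mem_product] at hcc
    obtain ⟨⟨hc, hc'⟩, hsum⟩ := hcc
    change c ∈ C at hc
    change c' ∈ C at hc'
    change c + c' = e at hsum
    have h1 := hD c hc
    have h2 := hD c' hc'
    have he0 : 0 ≤ |e| := abs_nonneg e
    obtain ⟨a, haB, ha⟩ := (hCx c (by linarith)).mpr hc
    have hL' : (D:ℤ) ≤ L := by exact_mod_cast hL
    obtain ⟨b, hbB, hb⟩ := (hCy c' (by linarith)).mpr hc'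
    have hs : (a:ℤ) + b = n := by linarith
    have hs' : a + b = n := by exact_mod_cast hs
    have h3 := abs_le.mp h1
    have h4 := abs_le.mp h2
    have hxy' : (x:ℤ) + 2 * D < y := by exact_mod_cast hxy
    have hab : (a:ℤ) < b := by linarith
    have hab' : a < b := by exact_mod_cast hab
    have hna : n - a = b := by omega
    refine ⟨a, ?_, ?_⟩
    · rw [Finset.mem_filter, Finset.mem_range, hna]
      exact ⟨by omega, haB, hbB, hab'⟩
    · have e1 : (a:ℤ) - x = c := by linarith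
      have e2 : (n:ℤ) - a - y = c' := by linarith
      rw [e1, e2]

theorem P6bfin (B : Set ℕ) (K : ℕ) (hK : ∀ X : ℕ, (B ∩ Set.Icc X (2*X)).ncard ≤ K) (X : ℕ) :
    ((Finset.Icc X (2*X)).filter (fun b => b ∈ B)).card ≤ K := by
  have e : (((Finset.Icc X (2*X)).filter (fun b => b ∈ B) : Finset ℕ) : Set ℕ)
      = B ∩ Set.Icc X (2*X) := by
    ext b
    rw [Finset.mem_coe, Finset.mem_filter, Finset.mem_Icc, Set.mem_inter_iff, Set.mem_Icc]
    exact and_comm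
  rw [← Set.ncard_coe_finset, e]
  exact hK X

theorem P6 (B : Set ℕ) (K : ℕ) (hK : ∀ X : ℕ, (B ∩ Set.Icc X (2*X)).ncard ≤ K) (C : Finset ℤ)
    (hC : C.Nonempty) (p : ℕ)
    (hp : ∀ L X : ℕ, ∃ y : ℕ, X ≤ y ∧ y % 2 = p ∧ ∀ d : ℤ, |d| ≤ L →
      ((∃ b ∈ B, (b:ℤ) = y + d) ↔ d ∈ C)) (M0 : ℕ)
    (hr : ∀ m, M0 ≤ m → r B (2*m+1) = r B (2*m) + (if 2*m+1 ∈ B then 1 else 0)) :
    ∀ m : ℤ, Even m → ((C ×ˢ C).filter (fun q => q.1 + q.2 = m + 1)).card
      = ((C ×ˢ C).filter (fun q => q.1 + q.2 = m)).card := by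
  intro m hm
  choose φ hφ1 hφ2 hφ3 using hp
  set D : ℕ := C.sup Int.natAbs with hDdef
  have hD : ∀ c ∈ C, |c| ≤ (D:ℤ) := by
    intro c hc
    have h1 : c.natAbs ≤ D := Finset.le_sup (f := Int.natAbs) hc
    have h2 : ((c.natAbs : ℕ) : ℤ) ≤ (D:ℤ) := by exact_mod_cast h1
    rwa [Int.natCast_natAbs] at h2
  set m' : ℕ := m.natAbs with hm'
  have hmm : |m| ≤ (m':ℤ) := by rw [hm', Int.natCast_natAbs]
  have hmm2 := abs_le.mp hmm
  have hmm1 : |m + 1| ≤ (m':ℤ) + 1 := by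
    rw [abs_le]; constructor <;> linarith
  obtain ⟨L0, hL0⟩ : ∃ L0 : ℕ, L0 = D + m' + 1 := ⟨_, rfl⟩
  -- the sequence of small centres
  obtain ⟨x, hx0, hxs, hxp, hxC⟩ : ∃ x : ℕ → ℕ, D + m' + 2 ≤ x 0 ∧ (∀ t, x t + 2 ≤ x (t+1)) ∧
      (∀ t, x t % 2 = p) ∧
      ∀ t, ∀ d : ℤ, |d| ≤ L0 → ((∃ b ∈ B, (b:ℤ) = ((x t : ℕ) : ℤ) + d) ↔ d ∈ C) := by
    refine ⟨fun t => Nat.rec (motive := fun _ => ℕ) (φ L0 (D + m' + 2))
      (fun _ prev => φ L0 (prev + 2)) t, hφ1 L0 _, fun t => hφ1 L0 _, fun t => ?_, fun t => ?_⟩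
    · cases t with
      | zero => exact hφ2 L0 _
      | succ t => exact hφ2 L0 _
    · cases t with
      | zero => exact hφ3 L0 _
      | succ t => exact hφ3 L0 _
  have hxlt : ∀ s k, x s + 2 ≤ x (s + (k + 1)) := by
    intro s k
    induction k with
    | zero => exact hxs s
    | succ k ih =>
      exact le_trans ih (le_trans (Nat.le_add_right _ 2) (hxs (s + (k+1))))
  have hxlt' : ∀ s t, s < t → x s + 2 ≤ x t := by
    intro s t hst
    obtain ⟨k, rfl⟩ : ∃ k, t = s + (k + 1) := ⟨t - s - 1, by omega⟩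
    exact hxlt s k
  have hxge : ∀ t, D + m' + 2 ≤ x t := by
    intro t
    rcases Nat.eq_zero_or_pos t with rfl | h
    · exact hx0
    · have := hxlt' 0 t h; omega
  have hxle : ∀ t, t ≤ K * K → x t ≤ x (K * K) := by
    intro t ht
    rcases Nat.lt_or_ge t (K*K) with h | h
    · have := hxlt' t _ h; omega
    · have : t = K * K := le_antisymm ht h
      rw [this]
  obtain ⟨Z, hZ⟩ : ∃ Z, Z = x (K * K) := ⟨_, rfl⟩
  rw [← hZ] at hxle
  obtain ⟨L, hL⟩ : ∃ L : ℕ, L = 10 * (Z + m' + D + 10) := ⟨_, rfl⟩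
  obtain ⟨y, hy⟩ : ∃ y : ℕ, y = φ L (10 * L + 2 * M0 + 10 * (Z + m' + D)) := ⟨_, rfl⟩
  have hy1 : 10 * L + 2 * M0 + 10 * (Z + m' + D) ≤ y := by rw [hy]; exact hφ1 L _
  have hy2 : y % 2 = p := by rw [hy]; exact hφ2 L _
  have hy3 : ∀ d : ℤ, |d| ≤ L → ((∃ b ∈ B, (b:ℤ) = y + d) ↔ d ∈ C) := by
    rw [hy]; exact hφ3 L _
  -- some centre without far pairs
  have hgood : ∃ t, t ≤ K * K ∧ ∀ a b : ℕ, a ∈ B → b ∈ B →
      ((a:ℤ) + b = x t + y + m ∨ (a:ℤ) + b = x t + y + (m + 1)) → a < b → (y:ℤ) - L ≤ b := by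
    by_contra hcon
    push Not at hcon
    have hcon' : ∀ t, ∃ q : ℕ × ℕ, t ≤ K * K → (q.1 ∈ B ∧ q.2 ∈ B ∧
        ((q.1:ℤ) + q.2 = x t + y + m ∨ (q.1:ℤ) + q.2 = x t + y + (m + 1)) ∧ q.1 < q.2 ∧
        (q.2:ℤ) < (y:ℤ) - L) := by
      intro t
      by_cases ht : t ≤ K * K
      · obtain ⟨a, b, h1, h2, h3, h4, h5⟩ := hcon t ht
        exact ⟨(a, b), fun _ => ⟨h1, h2, h3, h4, h5⟩⟩
      · exact ⟨(0, 0), fun h => absurd h ht⟩
    choose q hq using hcon'
    let P : Finset (ℕ × ℕ) := ((Finset.Icc (y/2) (2*(y/2))).filter (fun b => b ∈ B)).biUnion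
      (fun b => ((Finset.Icc (y-b) (2*(y-b))).filter (fun a => a ∈ B)).image (fun a => (a, b)))
    have hPc : P.card ≤ K * K := by
      refine (Finset.card_biUnion_le_card_mul _ _ K ?_).trans ?_
      · intro b _
        exact Finset.card_image_le.trans (P6bfin B K hK _)
      · exact Nat.mul_le_mul_right K (P6bfin B K hK _)
    have hmaps : ∀ t ∈ Finset.range (K * K + 1), q t ∈ P := by
      intro t ht
      rw [Finset.mem_range] at ht
      have ht' : t ≤ K * K := by omega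
      obtain ⟨h1, h2, h3, h4, h5⟩ := hq t ht'
      have hxt := hxge t
      have hxt' := hxle t ht'
      rw [Finset.mem_biUnion]
      refine ⟨(q t).2, ?_, ?_⟩
      · rw [Finset.mem_filter, Finset.mem_Icc]
        refine ⟨⟨?_, ?_⟩, h2⟩
        · rcases h3 with h3 | h3 <;> omega
        · omega
      · rw [Finset.mem_image]
        refine ⟨(q t).1, ?_, rfl⟩
        rw [Finset.mem_filter, Finset.mem_Icc]
        refine ⟨⟨?_, ?_⟩, h1⟩
        · rcases h3 with h3 | h3 <;> omega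
        · rcases h3 with h3 | h3 <;> omega
    have hcardlt : P.card < (Finset.range (K * K + 1)).card := by
      rw [Finset.card_range]; omega
    obtain ⟨s, hs, t, ht, hst, heq⟩ := Finset.exists_ne_map_eq_of_card_lt_of_maps_to hcardlt hmaps
    rw [Finset.mem_range] at hs ht
    obtain ⟨_, _, h3, _, _⟩ := hq s (by omega)
    obtain ⟨_, _, h3', _, _⟩ := hq t (by omega)
    rw [heq] at h3
    rcases lt_or_gt_of_ne hst with hlt | hlt
    · have := hxlt' s t hlt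
      rcases h3 with h3 | h3 <;> rcases h3' with h3' | h3' <;> omega
    · have := hxlt' t s hlt
      rcases h3 with h3 | h3 <;> rcases h3' with h3' | h3' <;> omega
  obtain ⟨t, ht, hfar⟩ := hgood
  have hxt := hxge t
  have hxt' := hxle t ht
  -- the even number
  obtain ⟨M, hM⟩ : ∃ M : ℕ, ((2 * M : ℕ) : ℤ) = x t + y + m := by
    have hpar : Even ((x t : ℤ) + y + m) := by
      have e1 := hxp t
      have h1 : Even ((x t : ℤ) + y) := by
        have : (x t + y) % 2 = 0 := by omega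
        obtain ⟨w, hw⟩ := Nat.even_iff.mpr this
        exact ⟨(w:ℤ), by exact_mod_cast hw⟩
      exact h1.add hm
    obtain ⟨w, hw⟩ := hpar
    refine ⟨w.toNat, ?_⟩
    have hwpos : 0 ≤ w := by omega
    push_cast
    rw [Int.toNat_of_nonneg hwpos]
    linarith
  have hM0 : M0 ≤ M := by omega
  have hnot : 2 * M + 1 ∉ B := by
    intro hmem
    have hd : |(x t : ℤ) + m + 1| ≤ L := by
      rw [abs_le]; constructor <;> omega
    have h1 := (hy3 _ hd).mp ⟨2 * M + 1, hmem, by push_cast at hM ⊢; linarith⟩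
    have h2 := (abs_le.mp (hD _ h1)).2
    omega
  have h1 := hr M hM0
  rw [if_neg hnot, add_zero] at h1
  have c1 := P6cnt B C (x t) y L0 L (2 * M) D m (hxC t) hy3 hM hD (by rw [hL0]; push_cast; linarith)
    (by omega) (by omega) (by omega) (by
      intro a b ha hb hab hlt
      refine hfar a b ha hb (Or.inl ?_) hlt
      rw [← hM]; exact_mod_cast hab)
  have c2 := P6cnt B C (x t) y L0 L (2 * M + 1) D (m + 1) (hxC t) hy3
    (by push_cast at hM ⊢; linarith) hD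
    (by rw [hL0]; push_cast; linarith) (by omega)
    (by
      have : |m + 1| ≤ (m':ℤ) + 1 := hmm1
      omega) (by omega) (by
      intro a b ha hb hab hlt
      refine hfar a b ha hb (Or.inr ?_) hlt
      have : (a:ℤ) + b = ((2 * M + 1 : ℕ) : ℤ) := by exact_mod_cast hab
      rw [this]; push_cast at hM ⊢; linarith)
  rw [← c1, ← c2]
  exact h1

end Pool.Agent.H2.Mono
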